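import Mathlib
import Pool.Agent.Run7.h477.WC.ASM3

/-!
# MP_76d46b_ag: in every characteristic, moduli of `(ℤ/p)²`-covers with one branch point have arbitrarily many components

The definitions (`Mod`, `Pt`, `Pt.Rel`, `Cov`, `Cov.deg`, `Fam`, `IsTorsor`, ...) are in
`Pool.Agent.Run7.h477.WC.Defs`. `Mod P k d` is the topological space of the moduli stack of `P`-Galois covers of genus zero
curves over `k` with one branch point and `d` the degree of the different above it (so `2 g_Y - 2 = -2 |P| + d`).

* A geometric point is a Galois extension `L / K(x)` with group `P`, étale over the affine line, `K ⊇ k` algebraically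
  closed, such that the length of `B∞ / 𝔇` is `d`, where `B∞` is the integral closure in `L` of the local ring of `ℙ¹` at
  infinity and `𝔇` its different; points are identified under extensions of `K` and isomorphisms (`x ↦ r x + s` on `ℙ¹`).
* A family over `Spec R` is a `P`-torsor over the affine line over `R` whose geometric fibres are such covers. Every object
  of the moduli stack over `Spec R` with `X = ℙ¹_R`, `B = ∞` (Zariski locally on the base every object is of this form) gives
  such a family, by restriction to `ℙ¹_R ∖ ∞`. So the topology used here, the finest one for which the classifying maps of all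
  families are continuous, is at most coarser than that of the moduli stack, and being disconnected in it is the stronger
  property.

Proof: for `P = (ℤ/p)²` the degree of the different is `∑ (m_χ + 1)` over the nontrivial characters `χ`, where `m_χ` is the
conductor (least degree of an Artin-Schreier polynomial); each `m_χ` is lower semicontinuous in families, so it is locally
constant; and many functions `χ ↦ m_χ` with the same sum occur.
-/

universe u

namespace Pool.Agent.Results.MP_76d46b_ag.OneBranchPoint

open Run7.h477.WC

/-- For every prime `p`, every algebraically closed field `k` of characteristic `p` and every `n ≥ 2` there is `d` such that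
the moduli space of `(ℤ/p)²`-Galois covers of genus zero curves with one branch point and degree of the different `d` is
nonempty, not irreducible, and has a continuous surjection onto a discrete set with `n` elements (so that it has at least
`n` connected components). -/
theorem result (p : ℕ) [Fact p.Prime] (k : Type u) [Field k] [IsAlgClosed k] [CharP k p] (n : ℕ) (hn : 2 ≤ n) :
    ∃ d : ℕ, Nonempty (Mod (Multiplicative (ZMod p × ZMod p)) k d) ∧
      ¬ IrreducibleSpace (Mod (Multiplicative (ZMod p × ZMod p)) k d) ∧
      ∃ f : Mod (Multiplicative (ZMod p × ZMod p)) k d → Fin n, Continuous f ∧ Function.Surjective f := by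
  obtain ⟨n, rfl⟩ : ∃ m, n = m + 1 := ⟨n - 1, by omega⟩
  obtain ⟨d, f, hf, hs⟩ := main p k n
  refine ⟨d, ?_, ?_, f, hf, hs⟩
  · obtain ⟨x, _⟩ := hs 0
    exact ⟨x⟩
  · intro h
    obtain ⟨x, hx⟩ := hs ⟨0, by omega⟩
    obtain ⟨y, hy⟩ := hs ⟨1, by omega⟩
    have h1 : PreconnectedSpace (Mod (Multiplicative (ZMod p × ZMod p)) k d) := inferInstance
    have h2 : f x = f y := PreconnectedSpace.constant h1 hf
    rw [hx, hy] at h2
    have := congrArg Fin.val h2
    simp at this

end Pool.Agent.Results.MP_76d46b_ag.OneBranchPoint
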